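import Mathlib

set_option autoImplicit false
open MeasureTheory Set Real ContinuousLinearMap

namespace Pool.Agent.H.MP_13a01f_pr

/-- compactly supported probability measure -/
def CS {X : Type*} [TopologicalSpace X] [MeasurableSpace X] (μ : Measure X) : Prop :=
  IsProbabilityMeasure μ ∧ ∃ K, IsCompact K ∧ μ.restrict K = μ

noncomputable def Ent {X : Type*} [MeasurableSpace X] (μ : Measure X) (g : X → ℝ) : ℝ :=
  ∫ x, g x * log (g x) ∂μ - (∫ x, g x ∂μ) * log (∫ x, g x ∂μ)

def LS {X : Type*} [NormedAddCommGroup X] [NormedSpace ℝ X] [MeasurableSpace X] (μ : Measure X)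
    (Q : (X →L[ℝ] ℝ) → ℝ) : Prop :=
  ∀ f : X → ℝ, ContDiff ℝ 1 f → (∀ x, 0 < f x) →
    Ent μ (fun x => f x ^ 2) ≤ ∫ x, Q (fderiv ℝ f x) ∂μ

section
variable {X Y : Type*} [NormedAddCommGroup X] [NormedSpace ℝ X] [MeasurableSpace X] [BorelSpace X]
  [ProperSpace X] [NormedAddCommGroup Y] [NormedSpace ℝ Y] [MeasurableSpace Y] [BorelSpace Y]
  [ProperSpace Y] {μ : Measure X} {ν : Measure Y}

omit [NormedSpace ℝ X] [ProperSpace X] in
lemma CS.int {E : Type*} [NormedAddCommGroup E] [SecondCountableTopology E] (h : CS μ) {F : X → E}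
    (hF : Continuous F) : Integrable F μ := by
  obtain ⟨h1, K, hK, e⟩ := h
  rw [← e]
  exact hF.continuousOn.integrableOn_compact hK

omit [NormedSpace ℝ X] [NormedSpace ℝ Y] [MeasurableSpace X] [BorelSpace X] in
lemma CS.cont (h : CS ν) {F : X → Y → ℝ} (hF : Continuous F.uncurry) :
    Continuous fun x => ∫ y, F x y ∂ν := by
  obtain ⟨h1, K, hK, e⟩ := h
  have := continuous_parametric_integral_of_continuous (μ := ν) hF hK
  rwa [e] at this

omit [NormedSpace ℝ X] [NormedSpace ℝ Y] [BorelSpace X] [BorelSpace Y] [ProperSpace X]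
  [ProperSpace Y] in
lemma CS.prod (h : CS μ) (h' : CS ν) : CS (μ.prod ν) := by
  obtain ⟨h1, K, hK, e⟩ := h
  obtain ⟨h2, L, hL, e'⟩ := h'
  exact ⟨inferInstance, K ×ˢ L, hK.prod hL, by rw [← Measure.prod_restrict, e, e']⟩

omit [NormedSpace ℝ X] [ProperSpace X] in
lemma CS.pos (h : CS μ) {F : X → ℝ} (hF : Continuous F) (hp : ∀ x, 0 < F x) :
    0 < ∫ x, F x ∂μ := by
  have := h.1
  rw [integral_pos_iff_support_of_nonneg (fun x => (hp x).le) (h.int hF)]
  have : Function.support F = univ := eq_univ_of_forall fun x => (hp x).ne'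
  simp [this]

lemma gibbs {a q : ℝ} (ha : 0 < a) (hq : 0 < q) : a * log q + a - q ≤ a * log a := by
  have h := log_le_sub_one_of_pos (div_pos hq ha)
  rw [log_div hq.ne' ha.ne'] at h
  have := mul_le_mul_of_nonneg_left h ha.le
  have e : a * (q / a - 1) = q - a := by field_simp
  nlinarith

omit [NormedSpace ℝ X] [NormedSpace ℝ Y] in
lemma sub (hμ : CS μ) (hν : CS ν) (F : X × Y → ℝ) (hF : Continuous F) (hp : ∀ z, 0 < F z) :
    Ent (μ.prod ν) F ≤ ∫ x, Ent ν (fun y => F (x, y)) ∂μ + ∫ y, Ent μ (fun x => F (x, y)) ∂ν := by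
  have := hμ.1
  have := hν.1
  have hP := hμ.prod hν
  set G : X → ℝ := fun x => ∫ y, F (x, y) ∂ν with hG
  set H : Y → ℝ := fun y => ∫ x, F (x, y) ∂μ with hH
  have cG : Continuous G := hν.cont (F := fun x y => F (x, y)) hF
  have cH : Continuous H := hμ.cont (F := fun y x => F (x, y)) (hF.comp continuous_swap)
  have pG : ∀ x, 0 < G x := fun x => hν.pos (hF.comp (Continuous.prodMk_right x)) fun _ => hp _
  have pH : ∀ y, 0 < H y := fun y => hμ.pos (hF.comp (Continuous.prodMk_left y)) fun _ => hp _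
  have cL : Continuous fun z => F z * log (F z) := continuous_mul_log.comp hF
  set m := ∫ z, F z ∂μ.prod ν with hm
  have pm : 0 < m := hP.pos hF hp
  have m1 : ∫ x, G x ∂μ = m := (integral_prod F (hP.int hF)).symm
  have m2 : ∫ y, H y ∂ν = m := (integral_prod_symm F (hP.int hF)).symm
  have lG : Continuous fun x => log (G x) := cG.log fun x => (pG x).ne'
  have lH : Continuous fun y => log (H y) := cH.log fun x => (pH x).ne'
  have e1 : ∫ x, Ent ν (fun y => F (x, y)) ∂μ =
      ∫ z, F z * log (F z) ∂μ.prod ν - ∫ x, G x * log (G x) ∂μ := by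
    rw [integral_prod _ (hP.int cL)]
    exact integral_sub (hμ.int (hν.cont (F := fun x y => F (x, y) * log (F (x, y))) cL))
      (hμ.int (cG.mul lG))
  have e2 : ∫ y, Ent μ (fun x => F (x, y)) ∂ν =
      ∫ z, F z * log (F z) ∂μ.prod ν - ∫ y, H y * log (H y) ∂ν := by
    rw [integral_prod_symm _ (hP.int cL)]
    exact integral_sub (hν.int (hμ.cont (F := fun y x => F (x, y) * log (F (x, y)))
      (cL.comp continuous_swap))) (hν.int (cH.mul lH))
  have c1 : Continuous fun z : X × Y => F z * log (G z.1) := hF.mul (lG.comp continuous_fst)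
  have c2 : Continuous fun z : X × Y => F z * log (H z.2) := hF.mul (lH.comp continuous_snd)
  have c3 : Continuous fun z : X × Y => G z.1 * H z.2 :=
    (cG.comp continuous_fst).mul (cH.comp continuous_snd)
  have e3 : ∫ z, F z * log (G z.1) ∂μ.prod ν = ∫ x, G x * log (G x) ∂μ := by
    rw [integral_prod _ (hP.int c1)]
    simp only [integral_mul_const, hG]
  have e4 : ∫ z, F z * log (H z.2) ∂μ.prod ν = ∫ y, H y * log (H y) ∂ν := by
    rw [integral_prod_symm _ (hP.int c2)]
    simp only [integral_mul_const, hH]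
  have e5 : ∫ z, G z.1 * H z.2 ∂μ.prod ν = m * m := by
    rw [integral_prod_mul, m1, m2]
  have key : ∫ z, (F z * log (G z.1) + F z * log (H z.2) + F z * (1 - log m) -
      G z.1 * H z.2 * m⁻¹) ∂μ.prod ν ≤ ∫ z, F z * log (F z) ∂μ.prod ν := by
    refine integral_mono (hP.int (((c1.add c2).add (hF.mul continuous_const)).sub
      (c3.mul continuous_const))) (hP.int cL) fun z => ?_
    have h := gibbs (hp z) (mul_pos (mul_pos (pG z.1) (pH z.2)) (inv_pos.2 pm))
    rw [log_mul (mul_pos (pG z.1) (pH z.2)).ne' (inv_pos.2 pm).ne',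
      log_mul (pG z.1).ne' (pH z.2).ne', log_inv] at h
    simp only
    linarith
  have c4 : Continuous fun z : X × Y => F z * log (G z.1) + F z * log (H z.2) := c1.add c2
  have c5 : Continuous fun z : X × Y => F z * (1 - log m) := hF.mul continuous_const
  have c6 : Continuous fun z : X × Y => F z * log (G z.1) + F z * log (H z.2) +
    F z * (1 - log m) := c4.add c5
  have c7 : Continuous fun z : X × Y => G z.1 * H z.2 * m⁻¹ := c3.mul continuous_const
  rw [integral_sub (hP.int c6) (hP.int c7), integral_add (hP.int c4)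
    (hP.int c5), integral_add (hP.int c1) (hP.int c2), e3, e4,
    integral_mul_const, integral_mul_const, e5, ← hm] at key
  rw [e1, e2]
  unfold Ent
  rw [← hm]
  have : m * m * m⁻¹ = m := by field_simp
  linarith

lemma tensor (hμ : CS μ) (hν : CS ν) {Q₁ : (X →L[ℝ] ℝ) → ℝ} {Q₂ : (Y →L[ℝ] ℝ) → ℝ}
    (c1 : Continuous Q₁) (c2 : Continuous Q₂) (h1 : LS μ Q₁) (h2 : LS ν Q₂) :
    LS (μ.prod ν) fun L => Q₁ (L.comp (inl ℝ X Y)) + Q₂ (L.comp (inr ℝ X Y)) := by
  intro f hf hp
  have := hμ.1
  have := hν.1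
  have hP := hμ.prod hν
  have cf := hf.continuous
  have cd : Continuous (fderiv ℝ f) := hf.continuous_fderiv one_ne_zero
  have df : Differentiable ℝ f := hf.differentiable one_ne_zero
  have d1 : Continuous fun z => Q₁ ((fderiv ℝ f z).comp (inl ℝ X Y)) :=
    c1.comp (cd.clm_comp continuous_const)
  have d2 : Continuous fun z => Q₂ ((fderiv ℝ f z).comp (inr ℝ X Y)) :=
    c2.comp (cd.clm_comp continuous_const)
  have cF : Continuous fun z => f z ^ 2 := cf.pow 2
  have cL : Continuous fun z => f z ^ 2 * log (f z ^ 2) := continuous_mul_log.comp cF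
  refine (sub hμ hν (fun z => f z ^ 2) cF fun z => pow_pos (hp z) 2).trans ?_
  rw [integral_add (hP.int d1) (hP.int d2), integral_prod _ (hP.int d2),
    integral_prod_symm _ (hP.int d1), add_comm]
  refine add_le_add (integral_mono (hν.int ?_) (hν.int (hμ.cont
    (F := fun y x => Q₁ ((fderiv ℝ f (x, y)).comp (inl ℝ X Y))) (d1.comp continuous_swap)))
    fun y => ?_) (integral_mono (hμ.int ?_) (hμ.int (hν.cont
    (F := fun x y => Q₂ ((fderiv ℝ f (x, y)).comp (inr ℝ X Y))) d2)) fun x => ?_)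
  · exact (hμ.cont (F := fun y x => f (x, y) ^ 2 * log (f (x, y) ^ 2))
      (cL.comp continuous_swap)).sub (continuous_mul_log.comp
      (hμ.cont (F := fun y x => f (x, y) ^ 2) (cF.comp continuous_swap)))
  · refine (h1 (fun x => f (x, y)) (hf.comp (contDiff_prodMk_left y)) fun _ => hp _).trans_eq ?_
    congr 1 with x
    congr 1
    exact ((df (x, y)).hasFDerivAt.comp x (hasFDerivAt_prodMk_left x y)).fderiv
  · exact (hν.cont (F := fun x y => f (x, y) ^ 2 * log (f (x, y) ^ 2)) cL).sub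
      (continuous_mul_log.comp (hν.cont (F := fun x y => f (x, y) ^ 2) cF))
  · refine (h2 (fun y => f (x, y)) (hf.comp (contDiff_prodMk_right x)) fun _ => hp _).trans_eq ?_
    congr 1 with y
    congr 1
    exact ((df (x, y)).hasFDerivAt.comp y (hasFDerivAt_prodMk_right x y)).fderiv

omit [ProperSpace X] [ProperSpace Y] [BorelSpace Y] in
lemma push (hμ : CS μ) {Q : (X →L[ℝ] ℝ) → ℝ} {Q' : (Y →L[ℝ] ℝ) → ℝ} (c1 : Continuous Q)
    (c2 : Continuous Q') (h : LS μ Q) {T : X → Y} (hT : ContDiff ℝ 1 T)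
    (hI : ∀ F : Y → ℝ, Continuous F → ∫ y, F y ∂ν = ∫ x, F (T x) ∂μ)
    (hQ : ∀ᵐ x ∂μ, ∀ L : Y →L[ℝ] ℝ, Q (L.comp (fderiv ℝ T x)) ≤ Q' L) : LS ν Q' := by
  intro f hf hp
  have cf := hf.continuous
  have cd : Continuous (fderiv ℝ f) := hf.continuous_fderiv one_ne_zero
  have cF : Continuous fun z => f z ^ 2 := cf.pow 2
  have h3 := h (f ∘ T) (hf.comp hT) fun _ => hp _
  unfold Ent at h3 ⊢
  rw [hI _ cF, hI (fun z => f z ^ 2 * log (f z ^ 2)) (continuous_mul_log.comp cF),
    hI (fun z => Q' (fderiv ℝ f z)) (c2.comp cd)]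
  refine h3.trans (integral_mono_ae
    (hμ.int (c1.comp ((hf.comp hT).continuous_fderiv one_ne_zero)))
    (hμ.int (c2.comp (cd.comp hT.continuous))) ?_)
  filter_upwards [hQ] with x hx
  rw [fderiv_comp x (hf.differentiable one_ne_zero _) (hT.differentiable one_ne_zero _)]
  exact hx _

omit [ProperSpace X] in
lemma unpos (hμ : CS μ) {C : ℝ} (hC : 0 ≤ C) (h : LS μ fun L => C * ‖L‖ ^ 2) (f : X → ℝ)
    (hf : ContDiff ℝ 1 f) : Ent μ (fun x => f x ^ 2) ≤ C * ∫ x, ‖fderiv ℝ f x‖ ^ 2 ∂μ := by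
  have := hμ.1
  have cf := hf.continuous
  have cd : Continuous (fderiv ℝ f) := hf.continuous_fderiv one_ne_zero
  have cF : Continuous fun z => f z ^ 2 := cf.pow 2
  have cL : Continuous fun z => f z ^ 2 * log (f z ^ 2) := continuous_mul_log.comp cF
  set m := ∫ x, f x ^ 2 ∂μ with hm
  set A := ∫ x, f x ^ 2 * log (f x ^ 2) ∂μ with hA
  have key : ∀ η : ℝ, 0 < η → A + η * log η - (m + η) * log (m + η) ≤
      C * ∫ x, ‖fderiv ℝ f x‖ ^ 2 ∂μ := by
    intro η hη
    have hp : ∀ x, 0 < f x ^ 2 + η := fun x => by positivity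
    have hg : ContDiff ℝ 1 fun x => √(f x ^ 2 + η) :=
      ((hf.pow 2).add contDiff_const).sqrt fun x => (hp x).ne'
    have h3 := h _ hg fun x => sqrt_pos.2 (hp x)
    unfold Ent at h3
    simp only [sq_sqrt (hp _).le] at h3
    rw [integral_add (hμ.int cF) (integrable_const _), integral_const, integral_const_mul] at h3
    simp only [probReal_univ, smul_eq_mul, one_mul, ← hm] at h3
    have h4 : A + η * log η ≤ ∫ x, (f x ^ 2 + η) * log (f x ^ 2 + η) ∂μ := by
      have : A + η * log η = ∫ x, (f x ^ 2 * log (f x ^ 2) + η * log η) ∂μ := by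
        rw [integral_add (hμ.int cL) (integrable_const _), integral_const]; simp [hA]
      rw [this]
      refine integral_mono (hμ.int (cL.add continuous_const))
        (hμ.int (continuous_mul_log.comp (cF.add continuous_const))) fun x => ?_
      have a1 : η * log η ≤ η * log (f x ^ 2 + η) :=
        mul_le_mul_of_nonneg_left (log_le_log hη (by nlinarith [sq_nonneg (f x)])) hη.le
      have a2 : f x ^ 2 * log (f x ^ 2) ≤ f x ^ 2 * log (f x ^ 2 + η) := by
        rcases (sq_nonneg (f x)).eq_or_lt with h0 | h0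
        · rw [← h0]; simp
        · exact mul_le_mul_of_nonneg_left (log_le_log h0 (by linarith)) h0.le
      simp only
      linarith
    have h5 : ∫ x, ‖fderiv ℝ (fun x => √(f x ^ 2 + η)) x‖ ^ 2 ∂μ ≤ ∫ x, ‖fderiv ℝ f x‖ ^ 2 ∂μ := by
      refine integral_mono (hμ.int ((hg.continuous_fderiv one_ne_zero).norm.pow 2))
        (hμ.int (cd.norm.pow 2)) fun x => ?_
      have d := (((hf.differentiable one_ne_zero x).hasFDerivAt.pow 2).add_const η).sqrt (hp x).ne'
      simp only
      rw [d.fderiv]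
      refine pow_le_pow_left₀ (norm_nonneg _) ?_ 2
      rw [smul_smul, norm_smul]
      refine mul_le_of_le_one_left (norm_nonneg _) ?_
      have s := sqrt_pos.2 (hp x)
      have : |f x| ≤ √(f x ^ 2 + η) := abs_le_sqrt (by linarith)
      simp only [Nat.add_one_sub_one, pow_one, nsmul_eq_mul, Nat.cast_ofNat, norm_mul,
        Real.norm_eq_abs, abs_of_pos (show 0 < 1 / (2 * √(f x ^ 2 + η)) by positivity), abs_two]
      rw [div_mul_eq_mul_div, div_le_one (by positivity)]
      linarith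
    nlinarith
  have lim : Filter.Tendsto (fun η : ℝ => A + η * log η - (m + η) * log (m + η))
      (nhdsWithin 0 (Ioi 0)) (nhds (A + 0 * log 0 - (m + 0) * log (m + 0))) :=
    (((continuous_const.add continuous_mul_log).sub (continuous_mul_log.comp
      (continuous_const.add continuous_id))).tendsto 0).mono_left nhdsWithin_le_nhds
  have := le_of_tendsto lim (eventually_nhdsWithin_of_forall key)
  unfold Ent
  rw [← hA, ← hm]
  simpa using this

end

end Pool.Agent.H.MP_13a01f_pr
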