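import Pool.Agent.H.MP_13a01f_pr.A

set_option autoImplicit false
open MeasureTheory Set Real ContinuousLinearMap

namespace Pool.Agent.H.MP_13a01f_pr

lemma ptw {a g s Λ : ℝ} (ha : 0 < a) (hy : 0 < a + g) (hs : 0 ≤ s) (hΛ : 0 ≤ Λ)
    (h : 4 * g ^ 2 ≤ exp Λ * s) :
    (a + g) ^ 2 * log ((a + g) ^ 2) - (a + g) ^ 2 * log (a ^ 2 + s) - (a + g) ^ 2 + (a ^ 2 + s) ≤
      (15 + 4 * Λ) * g ^ 2 + 3 * s := by
  set m := a ^ 2 + s with hm
  have pm : 0 < m := by positivity
  have py : 0 < (a + g) ^ 2 := by positivity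
  have e : log ((a + g) ^ 2) - log m = log ((a + g) ^ 2 / m) := (log_div py.ne' pm.ne').symm
  have g0 := sq_nonneg g
  rcases le_or_gt (g ^ 2) m with hg | hg
  · have h1 := mul_le_mul_of_nonneg_left (log_le_sub_one_of_pos (div_pos py pm)) py.le
    have h2 : (a + g) ^ 2 * ((a + g) ^ 2 / m - 1) - (a + g) ^ 2 + m =
        ((a + g) ^ 2 - m) ^ 2 / m := by field_simp; ring
    have h3 : ((a + g) ^ 2 - m) ^ 2 / m ≤ 15 * g ^ 2 + 3 * s := by
      rw [div_le_iff₀ pm]
      have e1 : (a + g) ^ 2 - m = 2 * a * g + g ^ 2 - s := by rw [hm]; ring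
      have e2 : (2 * a * g + g ^ 2 - s) ^ 2 ≤ 3 * (4 * (a ^ 2 * g ^ 2) + g ^ 2 * g ^ 2 + s * s) := by
        nlinarith [sq_nonneg (2 * a * g - g ^ 2), sq_nonneg (2 * a * g + s), sq_nonneg (g ^ 2 + s)]
      have e3 : a ^ 2 * g ^ 2 ≤ m * g ^ 2 := mul_le_mul_of_nonneg_right (by linarith) g0
      have e4 : g ^ 2 * g ^ 2 ≤ m * g ^ 2 := mul_le_mul_of_nonneg_right hg g0
      have e5 : s * s ≤ m * s := mul_le_mul_of_nonneg_right (by nlinarith [sq_nonneg a]) hs
      rw [e1]
      nlinarith
    rw [← e] at h1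
    nlinarith [mul_nonneg hΛ g0]
  · have h1 : (a + g) ^ 2 ≤ 4 * g ^ 2 := by nlinarith [sq_nonneg (a - g)]
    have h2 : log ((a + g) ^ 2 / m) ≤ Λ := by
      rw [log_le_iff_le_exp (div_pos py pm), div_le_iff₀ pm]
      nlinarith [exp_pos Λ, sq_nonneg a, mul_nonneg (exp_pos Λ).le (sq_nonneg a)]
    have h3 := mul_le_mul_of_nonneg_left h2 py.le
    rw [← e] at h3
    nlinarith [mul_le_mul_of_nonneg_right h1 hΛ]

lemma oneD {a b β κ s₀ Λ : ℝ} (hab : a ≤ b) {p w w' : ℝ → ℝ} (cp : Continuous p)
    (cw' : Continuous w') (hw : ∀ x, HasDerivAt w (w' x) x) (hβ : 0 < β)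
    (h1 : ∀ x ∈ Icc a b, β ≤ p x) (h2 : ∀ x ∈ Icc a b, p x ≤ w' x)
    (h3 : ∀ x ∈ Icc a b, |w x| ≤ κ * p x) (h4 : 0 ≤ w a) (hs : 0 ≤ s₀) (hΛ : 0 ≤ Λ)
    (h5 : 4 * (4 * κ ^ 2 + 1) ≤ exp Λ * s₀ * β) {μ : Measure ℝ} (hμ : CS μ)
    (hI : ∀ F : ℝ → ℝ, Continuous F → ∫ x, F x ∂μ = ∫ x in a..b, p x * F x) :
    LS μ fun L => ((15 + 4 * Λ) * (4 * κ ^ 2) + 3 * s₀) * (L 1) ^ 2 := by
  intro f hf hp
  have := hμ.1
  have cf := hf.continuous
  have cw : Continuous w := continuous_iff_continuousAt.2 fun x => (hw x).continuousAt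
  have cd : Continuous (deriv f) := hf.continuous_deriv le_rfl
  have df : ∀ x, HasDerivAt f (deriv f x) x := fun x => (hf.differentiable one_ne_zero x).hasDerivAt
  set g : ℝ → ℝ := fun x => f x - f b with hg
  have cg : Continuous g := cf.sub continuous_const
  have dg : ∀ x, HasDerivAt (fun x => g x ^ 2) (2 * g x * deriv f x) x := fun x => by
    have := ((df x).sub_const (f b)).fun_pow 2
    simpa [hg] using this
  have gb : g b = 0 := sub_self _
  set E := ∫ x in a..b, p x * deriv f x ^ 2 with hE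
  set N := ∫ x in a..b, p x * g x ^ 2 with hN
  have c1 : Continuous fun x => p x * deriv f x ^ 2 := cp.mul (cd.pow 2)
  have c2 : Continuous fun x => p x * g x ^ 2 := cp.mul (cg.pow 2)
  have pp : ∀ x ∈ Icc a b, 0 ≤ p x := fun x hx => hβ.le.trans (h1 x hx)
  have E0 : 0 ≤ E := intervalIntegral.integral_nonneg hab fun x hx =>
    mul_nonneg (pp x hx) (sq_nonneg _)
  have hardy : N ≤ 4 * κ ^ 2 * E := by
    have c3 : Continuous fun x => w' x * g x ^ 2 + w x * (2 * g x * deriv f x) := by fun_prop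
    have i1 := intervalIntegral.integral_eq_sub_of_hasDerivAt (a := a) (b := b)
      (fun x _ => (hw x).mul (dg x)) (c3.intervalIntegrable _ _)
    have c4 : Continuous fun x => (1 / 2) * (p x * g x ^ 2) - 2 * κ ^ 2 * (p x * deriv f x ^ 2) :=
      by fun_prop
    have i2 := intervalIntegral.integral_mono_on hab (c4.intervalIntegrable (μ := volume) _ _)
      (c3.intervalIntegrable _ _) fun x hx => by
        have b1 := mul_le_mul_of_nonneg_right (h2 x hx) (sq_nonneg (g x))
        have b2 : |w x * (2 * g x * deriv f x)| ≤ κ * p x * (2 * |g x| * |deriv f x|) := by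
          rw [abs_mul, abs_mul, abs_mul, abs_two]
          exact mul_le_mul_of_nonneg_right (h3 x hx) (by positivity)
        have b3 := neg_abs_le (w x * (2 * g x * deriv f x))
        have b4 := mul_nonneg (pp x hx) (sq_nonneg (|g x| - 2 * κ * |deriv f x|))
        have b5 := sq_abs (g x)
        have b6 := sq_abs (deriv f x)
        have b7 : p x * (|g x| - 2 * κ * |deriv f x|) ^ 2 = p x * g x ^ 2 -
            2 * (κ * p x * (2 * |g x| * |deriv f x|)) + 4 * κ ^ 2 * (p x * deriv f x ^ 2) := by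
          rw [← b5, ← b6]; ring
        linarith
    have c5 : Continuous fun x => (1 / 2) * (p x * g x ^ 2) := by fun_prop
    have c6 : Continuous fun x => 2 * κ ^ 2 * (p x * deriv f x ^ 2) := by fun_prop
    rw [i1, intervalIntegral.integral_sub (c5.intervalIntegrable _ _)
      (c6.intervalIntegrable _ _), intervalIntegral.integral_const_mul,
      intervalIntegral.integral_const_mul] at i2
    simp only [Pi.mul_apply, gb] at i2
    nlinarith [mul_nonneg h4 (sq_nonneg (g a))]
  have pt : ∀ x ∈ Icc a b, β * g x ^ 2 ≤ (4 * κ ^ 2 + 1) * E := by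
    intro x hx
    have c3 : Continuous fun x => 2 * g x * deriv f x := by fun_prop
    have i1 := intervalIntegral.integral_eq_sub_of_hasDerivAt (a := x) (b := b)
      (fun x _ => dg x) (c3.intervalIntegrable _ _)
    have c4 : Continuous fun x => p x * g x ^ 2 + p x * deriv f x ^ 2 := c2.add c1
    have c5 : Continuous fun x => -β * (2 * g x * deriv f x) := by fun_prop
    have i2 := intervalIntegral.integral_mono_on hx.2 (c5.intervalIntegrable (μ := volume) _ _)
      (c4.intervalIntegrable _ _) fun y hy => by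
        have := h1 y ⟨hx.1.trans hy.1, hy.2⟩
        nlinarith [mul_nonneg hβ.le (sq_nonneg (g y + deriv f y)),
          mul_le_mul_of_nonneg_right this (sq_nonneg (g y)),
          mul_le_mul_of_nonneg_right this (sq_nonneg (deriv f y))]
    have i3 := intervalIntegral.integral_mono_interval (μ := volume) hx.1 hx.2 le_rfl
      (f := fun x => p x * g x ^ 2 + p x * deriv f x ^ 2)
      ((ae_restrict_iff' measurableSet_Ioc).2 (Filter.Eventually.of_forall fun y hy =>
        add_nonneg (mul_nonneg (pp y ⟨hy.1.le, hy.2⟩) (sq_nonneg _))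
          (mul_nonneg (pp y ⟨hy.1.le, hy.2⟩) (sq_nonneg _)))) (c4.intervalIntegrable _ _)
    rw [intervalIntegral.integral_const_mul, i1] at i2
    rw [intervalIntegral.integral_add (a := a) (c2.intervalIntegrable _ _)
      (c1.intervalIntegrable _ _)] at i3
    simp only [gb] at i2
    nlinarith
  have cF : Continuous fun z => f z ^ 2 := cf.pow 2
  have cL : Continuous fun z => f z ^ 2 * log (f z ^ 2) := continuous_mul_log.comp cF
  have pM := hμ.pos cF fun x => pow_pos (hp x) 2
  have s0 : 0 ≤ s₀ * E := mul_nonneg hs E0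
  set m := f b ^ 2 + s₀ * E with hm
  have pm : 0 < m := by have := hp b; positivity
  have gi := gibbs pM pm
  have c6 : Continuous fun x => f x ^ 2 * log (f x ^ 2) - f x ^ 2 * (log m + 1) := by fun_prop
  have c7 : Continuous fun x => f x ^ 2 * (log m + 1) := by fun_prop
  have c8 : Continuous fun x => (15 + 4 * Λ) * g x ^ 2 := by fun_prop
  have c9 : Continuous fun x => f x ^ 2 * log (f x ^ 2) - f x ^ 2 * (log m + 1) + m := by fun_prop
  have c10 : Continuous fun x => (15 + 4 * Λ) * g x ^ 2 + 3 * (s₀ * E) := by fun_prop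
  have key : ∫ x, (f x ^ 2 * log (f x ^ 2) - f x ^ 2 * (log m + 1) + m) ∂μ ≤
      ∫ x, ((15 + 4 * Λ) * g x ^ 2 + 3 * (s₀ * E)) ∂μ := by
    rw [hI _ c9, hI _ c10]
    refine intervalIntegral.integral_mono_on hab ((cp.mul c9).intervalIntegrable _ _)
      ((cp.mul c10).intervalIntegrable _ _) fun x hx => mul_le_mul_of_nonneg_left ?_ (pp x hx)
    have e : f b + g x = f x := by simp [hg]
    have := ptw (g := g x) (hp b) (by rw [e]; exact hp x) s0 hΛ (by
      refine le_of_mul_le_mul_left ?_ hβ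
      nlinarith [pt x hx, mul_le_mul_of_nonneg_right h5 E0])
    rw [e] at this
    linarith
  rw [integral_add (hμ.int c6) (integrable_const _), integral_sub (hμ.int cL) (hμ.int c7),
    integral_add (hμ.int c8) (integrable_const _), integral_mul_const, integral_const_mul,
    hI (fun x => g x ^ 2) (cg.pow 2)] at key
  simp only [integral_const, probReal_univ, smul_eq_mul, one_mul] at key
  unfold Ent
  simp only [fderiv_apply_one_eq_deriv]
  rw [integral_const_mul, hI (fun x => deriv f x ^ 2) (cd.pow 2)]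
  nlinarith [mul_le_mul_of_nonneg_left hardy (show 0 ≤ 15 + 4 * Λ by linarith)]

noncomputable def U : Measure ℝ := volume.restrict (Icc (-1 / 2) (1 / 2))

lemma U_cs : CS U := by
  refine ⟨⟨by simp [U]; norm_num⟩, _, isCompact_Icc (a := -1 / 2) (b := 1 / 2), ?_⟩
  simp [U]

lemma U_int (F : ℝ → ℝ) : ∫ x, F x ∂U = ∫ x in (-1 / 2 : ℝ)..(1 / 2), F x := by
  rw [intervalIntegral.integral_of_le (by norm_num), ← integral_Icc_eq_integral_Ioc, U]

lemma U_ls : LS U fun L => 367 * (L 1) ^ 2 := by
  have := oneD (a := -1 / 2) (b := 1 / 2) (β := 1) (κ := 1) (s₀ := 1) (Λ := 19) (by norm_num)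
    (p := fun _ => 1) (w := fun x => x + 1 / 2) (w' := fun _ => 1) continuous_const continuous_const
    (fun x => (hasDerivAt_id x).add_const _) one_pos (fun _ _ => le_rfl) (fun _ _ => le_rfl)
    (fun x hx => abs_le.2 ⟨by linarith [hx.1], by linarith [hx.2]⟩) (by norm_num) zero_le_one
    (by norm_num) (by linarith [add_one_le_exp 19]) U_cs (fun F _ => by simp [U_int])
  convert this using 3
  norm_num

instance : IsProbabilityMeasure U := U_cs.1

noncomputable def Un (n : ℕ) : Measure (Fin n → ℝ) := Measure.pi fun _ => U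

lemma Un_eq (n : ℕ) : Un n = volume.restrict (univ.pi fun _ => Icc (-1 / 2) (1 / 2)) := by
  rw [volume_pi, Measure.restrict_pi_pi]; rfl

lemma Un_cs (n : ℕ) : CS (Un n) := by
  refine ⟨by unfold Un; infer_instance, _,
    isCompact_univ_pi fun _ => isCompact_Icc (a := (-1 / 2 : ℝ)) (b := 1 / 2), ?_⟩
  rw [Un_eq, Measure.restrict_restrict (MeasurableSet.univ_pi fun _ => measurableSet_Icc),
    inter_self]

lemma Un_ls (n : ℕ) : LS (Un n) fun L => 367 * ∑ i, (L (Pi.single i 1)) ^ 2 := by
  induction n with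
  | zero =>
    intro f _ _
    have := (Un_cs 0).1
    have : f = fun _ => f 0 := funext fun x => congrArg f (Subsingleton.elim _ _)
    rw [this]
    simp [Ent]
  | succ n ih =>
    let T := (Fin.consEquivL ℝ (fun _ : Fin (n + 1) => ℝ))
    refine push (U_cs.prod (Un_cs n)) (by fun_prop) (by fun_prop)
      (tensor U_cs (Un_cs n) (by fun_prop) (by fun_prop) U_ls ih) (T := T) T.contDiff
      (fun F _ => ?_) (Filter.Eventually.of_forall fun x L => le_of_eq ?_)
    · have := ((measurePreserving_piFinSuccAbove (fun _ : Fin (n + 1) => U) 0).symm).integral_comp' F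
      rw [Un, ← this]
      congr 1 with x
      congr 1
      simp [T, MeasurableEquiv.piFinSuccAbove]
      rfl
    · rw [T.fderiv, Fin.sum_univ_succ, mul_add]
      congr 3
      · simp only [T, comp_apply, inl_apply]
        congr 1
        ext i
        refine Fin.cases ?_ (fun j => ?_) i <;> simp
      · ext j
        simp only [T, comp_apply, inr_apply]
        congr 2
        ext i
        refine Fin.cases ?_ (fun k => ?_) i <;> simp [Pi.single_apply, eq_comm]

end Pool.Agent.H.MP_13a01f_pr
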