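import Pool.Agent.H.MP_13a01f_pr.B

set_option autoImplicit false
open MeasureTheory Set Real ContinuousLinearMap Pointwise

namespace Pool.Agent.H.MP_13a01f_pr

abbrev E (n : ℕ) := EuclideanSpace ℝ (Fin (n + 1))

noncomputable def A (n : ℕ) : (ℝ × (Fin n → ℝ)) ≃L[ℝ] E n :=
  (Fin.consEquivL ℝ (fun _ : Fin (n + 1) => ℝ)).trans (EuclideanSpace.equiv (Fin (n + 1)) ℝ).symm

@[simp] lemma A0 (n : ℕ) (z : ℝ × (Fin n → ℝ)) : A n z 0 = z.1 := rfl
@[simp] lemma As (n : ℕ) (z : ℝ × (Fin n → ℝ)) (i : Fin n) : A n z i.succ = z.2 i := rfl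

lemma A_mp (n : ℕ) : MeasurePreserving (A n) := by
  have := (PiLp.volume_preserving_toLp (Fin (n + 1))).comp
    (volume_preserving_piFinSuccAbove (fun _ : Fin (n + 1) => ℝ) 0).symm
  convert this using 1
  ext z i
  simp [MeasurableEquiv.piFinSuccAbove]
  rfl

lemma A_norm (n : ℕ) (z : ℝ × (Fin n → ℝ)) : ‖A n z‖ ^ 2 = z.1 ^ 2 + ∑ i, z.2 i ^ 2 := by
  rw [EuclideanSpace.real_norm_sq_eq, Fin.sum_univ_succ]
  simp

def sf (δ ε τ : ℝ) : ℝ := δ * (1 + ε * τ)

@[fun_prop] lemma sf_cont (δ ε : ℝ) : Continuous (sf δ ε) := by unfold sf; fun_prop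

def K (n : ℕ) (δ ε c : ℝ) : Set (E n) :=
  {x | x 0 + c ∈ Icc (0 : ℝ) 1 ∧ ∀ i : Fin n, |x i.succ| ≤ sf δ ε (x 0 + c) / 2}

noncomputable def T (n : ℕ) (δ ε c : ℝ) (z : ℝ × (Fin n → ℝ)) : E n :=
  A n (z.1 - c, sf δ ε z.1 • z.2)

lemma T_c1 (n : ℕ) (δ ε c : ℝ) : ContDiff ℝ 1 (T n δ ε c) := by
  unfold T sf
  exact (A n).contDiff.comp (by fun_prop)

lemma K_convex (n : ℕ) (δ ε c : ℝ) : Convex ℝ (K n δ ε c) := by
  intro x hx y hy a b ha hb hab
  have e : (a • x + b • y) 0 + c = a * (x 0 + c) + b * (y 0 + c) := by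
    simp only [PiLp.add_apply, PiLp.smul_apply, smul_eq_mul]
    linear_combination (-c) * hab
  refine ⟨?_, fun i => ?_⟩
  · rw [e]
    exact convex_Icc 0 1 hx.1 hy.1 ha hb hab
  · rw [e]
    simp only [PiLp.add_apply, PiLp.smul_apply, smul_eq_mul]
    refine (abs_add_le _ _).trans ?_
    rw [abs_mul, abs_mul, abs_of_nonneg ha, abs_of_nonneg hb]
    have h1 := mul_le_mul_of_nonneg_left (hx.2 i) ha
    have h2 := mul_le_mul_of_nonneg_left (hy.2 i) hb
    have : sf δ ε (a * (x 0 + c) + b * (y 0 + c)) = a * sf δ ε (x 0 + c) + b * sf δ ε (y 0 + c) := by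
      unfold sf
      linear_combination (-δ) * hab
    rw [this]
    linarith

variable {n : ℕ} {δ ε : ℝ}

lemma sf_pos (hδ : 0 < δ) (hε : 0 ≤ ε) {τ : ℝ} (h : τ ∈ Icc (0 : ℝ) 1) : 0 < sf δ ε τ := by
  have := h.1
  unfold sf
  positivity

lemma sf_le (hδ : 0 < δ) (hε1 : ε ≤ 1) {τ : ℝ} (h : τ ∈ Icc (0 : ℝ) 1) :
    sf δ ε τ ≤ 2 * δ := by
  have := mul_le_one₀ hε1 h.1 h.2
  unfold sf
  nlinarith

def S (n : ℕ) (δ ε : ℝ) : Set (ℝ × (Fin n → ℝ)) :=
  {z | z.1 ∈ Icc (0 : ℝ) 1 ∧ ∀ i, |z.2 i| ≤ sf δ ε z.1 / 2}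

lemma S_compact (hδ : 0 < δ) (hε1 : ε ≤ 1) : IsCompact (S n δ ε) := by
  refine ((isCompact_Icc (a := (0 : ℝ)) (b := 1)).prod
    (isCompact_univ_pi fun _ : Fin n => isCompact_Icc (a := -δ) (b := δ))).of_isClosed_subset ?_ ?_
  · have : S n δ ε = Prod.fst ⁻¹' Icc (0 : ℝ) 1 ∩ 
        ⋂ i, {z : ℝ × (Fin n → ℝ) | |z.2 i| ≤ sf δ ε z.1 / 2} := by
      ext z
      simp [S]
    rw [this]
    exact (isClosed_Icc.preimage continuous_fst).inter
      (isClosed_iInter fun i => isClosed_le (by fun_prop) (by fun_prop))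
  · intro z hz
    refine ⟨hz.1, fun i _ => abs_le.1 ?_⟩
    linarith [hz.2 i, sf_le hδ hε1 hz.1]

lemma K_compact (hδ : 0 < δ) (hε1 : ε ≤ 1) (c : ℝ) : IsCompact (K n δ ε c) := by
  have : K n δ ε c = (fun z => A n (z.1 - c, z.2)) '' S n δ ε := by
    ext x
    constructor
    · intro hx
      refine ⟨(x 0 + c, fun i => x i.succ), hx, ?_⟩
      ext i
      refine Fin.cases ?_ (fun j => ?_) i <;> simp
    · rintro ⟨z, hz, rfl⟩
      simpa [K, S] using hz
  rw [this]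
  exact (S_compact hδ hε1).image (by fun_prop)

lemma volK (hδ : 0 < δ) (hε : 0 ≤ ε) (hε1 : ε ≤ 1) (c : ℝ) {F : E n → ℝ} (hF : Continuous F) :
    ∫ x in K n δ ε c, F x =
      ∫ τ in (0 : ℝ)..1, sf δ ε τ ^ n * ∫ u, F (T n δ ε c (τ, u)) ∂Un n := by
  have m1 : MeasurePreserving (fun z : ℝ × (Fin n → ℝ) => A n (z - (c, 0))) :=
    (A_mp n).comp (measurePreserving_sub_right
      ((volume : Measure ℝ).prod (volume : Measure (Fin n → ℝ))) (c, 0))
  have m2 : MeasurableEmbedding (fun z : ℝ × (Fin n → ℝ) => A n (z - (c, 0))) :=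
    ((Homeomorph.subRight (c, 0)).trans (A n).toHomeomorph).measurableEmbedding
  have e : (fun z : ℝ × (Fin n → ℝ) => A n (z - (c, 0))) ⁻¹' K n δ ε c = S n δ ε := by
    ext z
    simp [K, S]
  have hS := S_compact (n := n) hδ hε1
  have cG : Continuous fun z : ℝ × (Fin n → ℝ) => F (A n (z - (c, 0))) := by fun_prop
  rw [← m1.setIntegral_preimage_emb m2, e, ← integral_indicator hS.measurableSet,
    Measure.volume_eq_prod, integral_prod _ ((integrable_indicator_iff hS.measurableSet).2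
      (cG.continuousOn.integrableOn_compact hS)), intervalIntegral.integral_of_le zero_le_one,
    ← integral_Icc_eq_integral_Ioc, ← integral_indicator measurableSet_Icc]
  congr 1 with τ
  by_cases hτ : τ ∈ Icc (0 : ℝ) 1
  · have hs := sf_pos hδ hε hτ
    have h := Measure.setIntegral_comp_smul_of_pos (volume : Measure (Fin n → ℝ))
      (fun y => F (A n (τ - c, y))) (univ.pi fun _ => Icc (-1 / 2) (1 / 2)) hs
    rw [indicator_of_mem hτ, Un_eq]
    unfold T
    simp only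
    rw [h, Module.finrank_fin_fun, smul_eq_mul, mul_inv_cancel_left₀ (pow_pos hs n).ne',
      ← integral_indicator ((MeasurableSet.univ_pi fun _ => measurableSet_Icc).const_smul₀ _)]
    congr 1 with y
    have : (τ, y) ∈ S n δ ε ↔ y ∈ sf δ ε τ • univ.pi fun _ : Fin n => Icc (-1 / 2 : ℝ) (1 / 2) := by
      rw [mem_smul_set_iff_inv_smul_mem₀ hs.ne']
      simp only [S, mem_ofPred_eq, hτ.1, hτ.2, true_and, mem_pi, mem_univ, true_imp_iff, Pi.smul_apply,
        smul_eq_mul, mem_Icc, abs_le]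
      refine forall_congr' fun i => ?_
      rw [inv_mul_le_iff₀ hs, le_inv_mul_iff₀ hs]
      constructor <;> rintro ⟨h1, h2⟩ <;> constructor <;> linarith
    by_cases hy : (τ, y) ∈ S n δ ε
    · rw [indicator_of_mem hy, indicator_of_mem (this.1 hy)]
      simp
    · rw [indicator_of_notMem hy, indicator_of_notMem (fun h => hy (this.2 h))]
  · rw [indicator_of_notMem hτ]
    have : ∀ y, (τ, y) ∉ S n δ ε := fun y h => hτ h.1
    simp [indicator_of_notMem (this _)]

lemma exP {p : ℝ → ℝ} (cp : Continuous p) (h0 : ∀ x ∈ Icc (0 : ℝ) 1, 0 ≤ p x)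
    (h1 : ∫ x in (0 : ℝ)..1, p x = 1) : ∃ P : Measure ℝ, IsProbabilityMeasure P ∧
      P.restrict (Icc 0 1) = P ∧ ∀ F : ℝ → ℝ, ∫ x, F x ∂P = ∫ x in (0 : ℝ)..1, p x * F x := by
  have hI : ∀ F : ℝ → ℝ, ∫ x, F x ∂(volume.restrict (Icc (0 : ℝ) 1)).withDensity
      (fun x => ENNReal.ofReal (p x)) = ∫ x in (0 : ℝ)..1, p x * F x := by
    intro F
    rw [integral_withDensity_eq_integral_toReal_smul (by fun_prop) (by simp),
      intervalIntegral.integral_of_le zero_le_one, ← integral_Icc_eq_integral_Ioc]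
    refine setIntegral_congr_fun measurableSet_Icc fun x hx => ?_
    simp [ENNReal.toReal_ofReal (h0 x hx)]
  refine ⟨_, ?_, ?_, hI⟩
  · have := hI 1
    simp only [Pi.one_apply, mul_one, h1, integral_const, smul_eq_mul] at this
    exact ⟨(ENNReal.toReal_eq_one_iff _).1 this⟩
  · exact Measure.restrict_eq_self_of_ae_mem
      ((withDensity_absolutelyContinuous _ _).ae_le (ae_restrict_mem measurableSet_Icc))

lemma tilt_cs {X : Type*} [NormedAddCommGroup X] [MeasurableSpace X] [BorelSpace X]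
    {μ : Measure X} [IsFiniteMeasureOnCompacts μ] {K : Set X} (hK : IsCompact K)
    (e : μ.restrict K = μ) (h0 : μ ≠ 0) {f : X → ℝ} (hf : Continuous f) : CS (μ.tilted f) := by
  have : NeZero μ := ⟨h0⟩
  refine ⟨isProbabilityMeasure_tilted ?_, K, hK, Measure.restrict_eq_self_of_ae_mem
    ((tilted_absolutelyContinuous _ _).ae_le ?_)⟩
  · rw [← e]
    exact (continuous_exp.comp hf).continuousOn.integrableOn_compact hK
  · rw [← e]
    exact ae_restrict_mem hK.measurableSet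

lemma low {X : Type*} [NormedAddCommGroup X] [MeasurableSpace X] [BorelSpace X]
    {ν : Measure X} (hν : CS ν) {φ : X → ℝ} (hφ : Continuous φ) {q : ℝ → ℝ} (cq : Continuous q)
    {b : ℝ} (hb : 0 < b) (hq : ∀ x ∈ Icc (0 : ℝ) 1, b ≤ q x)
    (hI : ∀ G : ℝ → ℝ, Continuous G → ∫ x, G (φ x) ∂ν = ∫ τ in (0 : ℝ)..1, q τ * G τ) :
    b / 12 ≤ Ent ν fun x => (φ x + 1) ^ 2 := by
  have := hν.1
  set m := ∫ x, (φ x + 1) ^ 2 ∂ν with hm
  have c0 : Continuous fun τ : ℝ => (τ + 1) ^ 2 := by fun_prop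
  have pm : 0 < m := by
    rw [hm, hI _ c0]
    refine intervalIntegral.intervalIntegral_pos_of_pos_on ((cq.mul c0).intervalIntegrable _ _)
      (fun x hx => mul_pos (hb.trans_le (hq x ⟨hx.1.le, hx.2.le⟩)) ?_) one_pos
    have := hx.1
    positivity
  have c1 : Continuous fun τ : ℝ => (τ + 1) ^ 2 * log ((τ + 1) ^ 2) := continuous_mul_log.comp c0
  have c2 : Continuous fun τ : ℝ => (τ + 1) ^ 2 * log ((τ + 1) ^ 2) - (τ + 1) ^ 2 * (log m + 1) :=
    by fun_prop
  have c3 : Continuous fun τ : ℝ =>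
    (τ + 1) ^ 2 * log ((τ + 1) ^ 2) - (τ + 1) ^ 2 * (log m + 1) + m := by fun_prop
  have c4 : Continuous fun τ : ℝ => (τ + 1) ^ 2 * (log m + 1) := by fun_prop
  have h := hI _ c3
  rw [integral_add (f := fun x => (φ x + 1) ^ 2 * log ((φ x + 1) ^ 2) - (φ x + 1) ^ 2 * (log m + 1))
    (hν.int (c2.comp hφ)) (integrable_const _),
    integral_sub (f := fun x => (φ x + 1) ^ 2 * log ((φ x + 1) ^ 2))
    (g := fun x => (φ x + 1) ^ 2 * (log m + 1)) (hν.int (c1.comp hφ)) (hν.int (c4.comp hφ)),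
    integral_mul_const, ← hm] at h
  simp only [integral_const, probReal_univ, smul_eq_mul, one_mul] at h
  set r := √m with hr
  have pr : 0 < r := sqrt_pos.2 pm
  have er : m = r ^ 2 := (sq_sqrt pm.le).symm
  have c5 : Continuous fun τ : ℝ => b * (τ ^ 2 + (2 * (1 - r) * τ + (1 - r) ^ 2)) := by fun_prop
  have i := intervalIntegral.integral_mono_on zero_le_one (c5.intervalIntegrable (μ := volume) _ _)
    ((cq.mul c3).intervalIntegrable _ _) fun x hx => by
      have p1 : 0 < x + 1 := by linarith [hx.1]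
      have g := gibbs p1 pr
      have g2 := mul_le_mul_of_nonneg_left g p1.le
      have : x ^ 2 + (2 * (1 - r) * x + (1 - r) ^ 2) ≤
          (x + 1) ^ 2 * log ((x + 1) ^ 2) - (x + 1) ^ 2 * (log m + 1) + m := by
        rw [er, log_pow, log_pow]
        push_cast
        nlinarith
      exact mul_le_mul (hq x hx) this (by nlinarith [sq_nonneg (x + (1 - r))])
        (hb.le.trans (hq x hx))
  have j : ∫ τ in (0 : ℝ)..1, b * (τ ^ 2 + (2 * (1 - r) * τ + (1 - r) ^ 2)) =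
      b * (1 / 3 + ((1 - r) + (1 - r) ^ 2)) := by
    rw [intervalIntegral.integral_const_mul, intervalIntegral.integral_add (by simp)
      (Continuous.intervalIntegrable (by fun_prop) _ _), intervalIntegral.integral_add
      (Continuous.intervalIntegrable (by fun_prop) _ _) (by simp),
      intervalIntegral.integral_const_mul]
    simp
    norm_num
    left
    ring
  simp only [Pi.mul_apply] at i
  rw [j, ← h] at i
  unfold Ent
  rw [← hm]
  nlinarith [mul_nonneg hb.le (sq_nonneg (3 / 2 - r))]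

end Pool.Agent.H.MP_13a01f_pr
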