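import Pool.Agent.H.MP_13a01f_pr.C

set_option autoImplicit false
open MeasureTheory Set Real ContinuousLinearMap

namespace Pool.Agent.H.MP_13a01f_pr

noncomputable def wf (t : ℝ) : ℝ := ∫ u, exp (-(t * u) ^ 2 / 2) ∂U

noncomputable def b0 (δ : ℝ) : ℝ := (∫ u, u ^ 2 * exp (-(δ * u) ^ 2 / 2) ∂U) / wf δ

lemma wf_pos (t : ℝ) : 0 < wf t := U_cs.pos (by fun_prop) fun _ => exp_pos _

lemma wf_cont : Continuous wf :=
  U_cs.cont (F := fun t u => exp (-(t * u) ^ 2 / 2)) (by fun_prop)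

lemma U_ae : ∀ᵐ u ∂U, u ^ 2 ≤ 1 := by
  filter_upwards [ae_restrict_mem (μ := volume) (measurableSet_Icc (a := (-1 / 2 : ℝ)) (b := 1 / 2))]
    with u hu
  nlinarith [hu.1, hu.2]

lemma b0_le (δ : ℝ) : b0 δ ≤ 1 := by
  rw [b0, div_le_one (wf_pos δ)]
  refine integral_mono_ae (U_cs.int (by fun_prop)) (U_cs.int (by fun_prop)) ?_
  filter_upwards [U_ae] with u hu
  exact mul_le_of_le_one_left (exp_pos _).le hu

lemma b0_ge {δ : ℝ} (h : δ ^ 2 ≤ 1) : 1 / 24 ≤ b0 δ := by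
  have h1 : wf δ ≤ 1 := by
    have : ∫ _, (1 : ℝ) ∂U = 1 := by simp
    rw [← this]
    exact integral_mono (U_cs.int (by fun_prop)) (U_cs.int (by fun_prop)) fun u =>
      exp_le_one_iff.2 (by nlinarith [sq_nonneg (δ * u)])
  have h2 : ∫ u, (1 / 2) * u ^ 2 ∂U = 1 / 24 := by
    rw [integral_const_mul, U_int, integral_pow]
    norm_num
  have h3 : ∫ u, (1 / 2) * u ^ 2 ∂U ≤ ∫ u, u ^ 2 * exp (-(δ * u) ^ 2 / 2) ∂U := by
    refine integral_mono_ae (U_cs.int (by fun_prop)) (U_cs.int (by fun_prop)) ?_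
    filter_upwards [U_ae] with u hu
    have := add_one_le_exp (-(δ * u) ^ 2 / 2)
    have h4 : (δ * u) ^ 2 ≤ 1 := by rw [mul_pow]; exact mul_le_one₀ h (sq_nonneg _) hu
    nlinarith [sq_nonneg u]
  rw [b0, le_div_iff₀ (wf_pos δ)]
  linarith

lemma wf_bounds {δ t x : ℝ} (e : t ^ 2 = δ ^ 2 + 2 * x) (hx : 0 ≤ x) :
    exp (-x * b0 δ) * wf δ ≤ wf t ∧ wf t ≤ exp (-x * b0 δ + x ^ 2) * wf δ := by
  have w := wf_pos δ
  have eb : ∫ u, u ^ 2 * exp (-(δ * u) ^ 2 / 2) ∂U = b0 δ * wf δ := by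
    rw [b0, div_mul_cancel₀ _ w.ne']
  have lin : ∀ a b : ℝ, ∫ u, (a * exp (-(δ * u) ^ 2 / 2) + b * (u ^ 2 * exp (-(δ * u) ^ 2 / 2))) ∂U =
      (a + b * b0 δ) * wf δ := fun a b => by
    rw [integral_add (U_cs.int (by fun_prop)) (U_cs.int (by fun_prop)), integral_const_mul,
      integral_const_mul, eb, ← wf]
    ring
  have ex : ∀ u, exp (-(t * u) ^ 2 / 2) = exp (-(δ * u) ^ 2 / 2) * exp (-x * u ^ 2) := fun u => by
    rw [← exp_add, mul_pow, mul_pow, e]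
    ring_nf
  constructor
  · have := lin (exp (-x * b0 δ) * (1 + x * b0 δ)) (-exp (-x * b0 δ) * x)
    have e2 : (exp (-x * b0 δ) * (1 + x * b0 δ) + -exp (-x * b0 δ) * x * b0 δ) = exp (-x * b0 δ) :=
      by ring
    rw [e2] at this
    rw [← this]
    refine integral_mono (U_cs.int (by fun_prop)) (U_cs.int (by fun_prop)) fun u => ?_
    have h1 := add_one_le_exp (-x * u ^ 2 + x * b0 δ)
    have h2 : exp (-x * u ^ 2) = exp (-x * b0 δ) * exp (-x * u ^ 2 + x * b0 δ) := by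
      rw [← exp_add]; ring_nf
    simp only
    rw [ex, h2]
    nlinarith [mul_le_mul_of_nonneg_left h1 (mul_pos (exp_pos (-(δ * u) ^ 2 / 2))
      (exp_pos (-x * b0 δ))).le]
  · refine le_trans ?_ (mul_le_mul_of_nonneg_right (add_one_le_exp _) w.le)
    have := lin (1 + x ^ 2) (-x)
    have e2 : 1 + x ^ 2 + -x * b0 δ = -x * b0 δ + x ^ 2 + 1 := by ring
    rw [e2] at this
    rw [← this]
    refine integral_mono_ae (U_cs.int (by fun_prop)) (U_cs.int (by fun_prop)) ?_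
    filter_upwards [U_ae] with u hu
    have y0 : 0 ≤ x * u ^ 2 := by positivity
    have y1 : x * u ^ 2 ≤ x := mul_le_of_le_one_right hx hu
    have h1 : exp (-x * u ^ 2) ≤ 1 - x * u ^ 2 + x ^ 2 := by
      have h2 := add_one_le_exp (x * u ^ 2)
      have h3 : exp (-x * u ^ 2) * exp (x * u ^ 2) = 1 := by rw [← exp_add]; simp
      have h4 := mul_le_mul_of_nonneg_left h2 (exp_pos (-x * u ^ 2)).le
      have h5 : (x * u ^ 2) ^ 2 ≤ x ^ 2 := pow_le_pow_left₀ y0 y1 2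
      refine le_of_mul_le_mul_right ?_ (show 0 < x * u ^ 2 + 1 by linarith)
      nlinarith [mul_le_mul_of_nonneg_right h5 (show 0 ≤ x * u ^ 2 + 1 by linarith),
        pow_nonneg y0 3]
    rw [ex]
    nlinarith [mul_le_mul_of_nonneg_left h1 (exp_pos (-(δ * u) ^ 2 / 2)).le]

lemma pw {n : ℕ} {x : ℝ} (hx : 0 ≤ x) (h : n * x ^ 2 ≤ 1) :
    exp (n * x - 1) ≤ (1 + x) ^ n ∧ (1 + x) ^ n ≤ exp (n * x) := by
  constructor
  · have h1 : exp (x - x ^ 2) ≤ 1 + x := by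
      rw [← le_log_iff_exp_le (by linarith)]
      refine le_trans ?_ (one_sub_inv_le_log_of_pos (by linarith))
      rw [le_sub_comm, inv_le_iff_one_le_mul₀ (by linarith)]
      nlinarith [pow_nonneg hx 3]
    refine le_trans ?_ (pow_le_pow_left₀ (exp_pos _).le h1 n)
    rw [← exp_nat_mul]
    exact exp_le_exp.2 (by linarith)
  · rw [exp_nat_mul]
    exact pow_le_pow_left₀ (by linarith) (by linarith [add_one_le_exp x]) n

end Pool.Agent.H.MP_13a01f_pr
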