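import Pool.Agent.H.MP_13a01f_pr.D

set_option autoImplicit false
open MeasureTheory Set Real ContinuousLinearMap

namespace Pool.Agent.H.MP_13a01f_pr

variable {n : ℕ} {δ ε : ℝ}

@[simp] lemma T0 (c : ℝ) (z : ℝ × (Fin n → ℝ)) : T n δ ε c z 0 = z.1 - c := rfl
@[simp] lemma Ts (c : ℝ) (z : ℝ × (Fin n → ℝ)) (i : Fin n) :
    T n δ ε c z i.succ = sf δ ε z.1 * z.2 i := rfl

lemma T_d (c : ℝ) (z v : ℝ × (Fin n → ℝ)) :
    fderiv ℝ (T n δ ε c) z v = A n (v.1, sf δ ε z.1 • v.2 + (δ * ε * v.1) • z.2) := by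
  have d1 : HasFDerivAt (fun z : ℝ × (Fin n → ℝ) => sf δ ε z.1)
      ((δ * ε) • fst ℝ ℝ (Fin n → ℝ)) z := by
    have := (((hasFDerivAt_fst (𝕜 := ℝ) (p := z)).const_mul ε).const_add 1).const_mul δ
    rwa [smul_smul] at this
  have d := (A n).hasFDerivAt.comp z
    (((hasFDerivAt_fst (𝕜 := ℝ) (p := z)).sub_const c).prodMk (d1.fun_smul hasFDerivAt_snd))
  have e := d.fderiv
  change fderiv ℝ (T n δ ε c) z = _ at e
  rw [e]
  simp

lemma Qb (hδ : 0 < δ) (hδ1 : δ ≤ 1) (hε : 0 ≤ ε) (hε1 : ε ≤ 1) (h : n * ε ^ 2 ≤ 1) (c : ℝ) {a : ℝ}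
    (ha : 0 ≤ a) {z : ℝ × (Fin n → ℝ)}
    (hz : z ∈ Icc (0 : ℝ) 1 ×ˢ univ.pi fun _ : Fin n => Icc (-1 / 2 : ℝ) (1 / 2))
    (L : E n →L[ℝ] ℝ) :
    a * ((L.comp (fderiv ℝ (T n δ ε c) z)).comp (inl ℝ ℝ (Fin n → ℝ)) 1) ^ 2 +
      367 * ∑ i, ((L.comp (fderiv ℝ (T n δ ε c) z)).comp (inr ℝ ℝ (Fin n → ℝ))
        (Pi.single i 1)) ^ 2 ≤ (2 * a + 1468 * δ ^ 2) * ‖L‖ ^ 2 := by
  simp only [comp_apply, inl_apply, inr_apply, T_d, smul_zero, zero_add, mul_one, mul_zero,
    zero_smul, add_zero]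
  have h1 : L (A n (1, (δ * ε) • z.2)) ^ 2 ≤ 2 * ‖L‖ ^ 2 := by
    have h2 := pow_le_pow_left₀ (norm_nonneg _) (L.le_opNorm (A n (1, (δ * ε) • z.2))) 2
    rw [mul_pow, A_norm, Real.norm_eq_abs, sq_abs] at h2
    have h3 : ∑ i, ((δ * ε) • z.2) i ^ 2 ≤ ∑ _i : Fin n, ε ^ 2 := by
      refine Finset.sum_le_sum fun i _ => ?_
      have h4 := hz.2 i (mem_univ _)
      have h5 : z.2 i ^ 2 ≤ 1 := by nlinarith [h4.1, h4.2]
      have h6 : δ ^ 2 ≤ 1 := by nlinarith
      have := mul_le_mul_of_nonneg_left (mul_le_one₀ h6 (sq_nonneg _) h5) (sq_nonneg ε)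
      simp only [Pi.smul_apply, smul_eq_mul]
      nlinarith
    simp only [Finset.sum_const, Finset.card_univ, Fintype.card_fin, nsmul_eq_mul] at h3
    nlinarith [sq_nonneg ‖L‖]
  have h2 : ∀ i, A n (0, sf δ ε z.1 • Pi.single i 1) =
      sf δ ε z.1 • EuclideanSpace.basisFun (Fin (n + 1)) ℝ i.succ := fun i => by
    ext j
    refine Fin.cases ?_ (fun k => ?_) j <;> simp [Pi.single_apply, (Fin.succ_ne_zero _).symm]
  have h3 := (EuclideanSpace.basisFun (Fin (n + 1)) ℝ).norm_dual L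
  rw [Fin.sum_univ_succ] at h3
  simp only [h2, map_smul, smul_eq_mul, mul_pow, ← Finset.mul_sum]
  have h4 : sf δ ε z.1 ^ 2 ≤ (2 * δ) ^ 2 :=
    pow_le_pow_left₀ (sf_pos hδ hε hz.1).le (sf_le hδ hε1 hz.1) 2
  have h5 : ∑ i : Fin n, L (EuclideanSpace.basisFun (Fin (n + 1)) ℝ i.succ) ^ 2 ≤ ‖L‖ ^ 2 := by
    nlinarith [sq_nonneg (L (EuclideanSpace.basisFun (Fin (n + 1)) ℝ 0))]
  have h6 := mul_le_mul h4 h5 (Finset.sum_nonneg fun _ _ => sq_nonneg _) (sq_nonneg _)
  nlinarith [mul_le_mul_of_nonneg_left h1 ha]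

lemma main (hn : n ≠ 0) (hδ : 0 < δ) (hδ1 : δ ≤ 1) (hε : 0 ≤ ε) (hε1 : ε ≤ 1) (h : n * ε ^ 2 ≤ 1)
    {θ : ℝ} (hθ : θ = n * b0 δ * δ ^ 2 * ε - 1) (hθ1 : 1 ≤ θ) : ∃ κ c : ℝ, ∀ μ : Measure (E n),
    μ = (volume.restrict (K n δ ε c)).tilted (fun x => -(κ * (x 0 + c))) →
    CS μ ∧ ∫ x, x ∂μ = 0 ∧ LS μ (fun L => (862 / θ + 1468 * δ ^ 2) * ‖L‖ ^ 2) ∧
      exp (-5) / 12 ≤ Ent (μ.tilted fun x => -‖x‖ ^ 2 / (2 * 1)) fun x => (x 0 + c + 1) ^ 2 := by
  set κ := n * ε - (θ + 1) with hκ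
  set r : ℝ → ℝ := fun τ => exp (-(κ * τ)) * (1 + ε * τ) ^ n with hr
  have cr : Continuous r := by fun_prop
  have rb : ∀ τ ∈ Icc (0 : ℝ) 1, exp ((θ + 1) * τ - 1) ≤ r τ ∧ r τ ≤ exp ((θ + 1) * τ) := by
    intro τ hτ
    have h1 : τ ^ 2 ≤ 1 := by nlinarith [hτ.1, hτ.2]
    have h2 := pw (n := n) (mul_nonneg hε hτ.1) (by
      rw [mul_pow, ← mul_assoc]; exact mul_le_one₀ h (sq_nonneg _) h1)
    constructor
    · refine le_trans (le_of_eq ?_) (mul_le_mul_of_nonneg_left h2.1 (exp_pos _).le)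
      rw [← exp_add, hκ]; ring_nf
    · refine (mul_le_mul_of_nonneg_left h2.2 (exp_pos _).le).trans (le_of_eq ?_)
      rw [← exp_add, hκ]; ring_nf
  set Z := ∫ τ in (0 : ℝ)..1, r τ with hZ
  have Z0 : 0 < Z := intervalIntegral.intervalIntegral_pos_of_pos_on (cr.intervalIntegrable _ _)
    (fun x hx => (exp_pos _).trans_le (rb x ⟨hx.1.le, hx.2.le⟩).1) one_pos
  have Z1 : Z ≤ exp (θ + 1) := by
    have := intervalIntegral.integral_mono_on zero_le_one (cr.intervalIntegrable (μ := volume) _ _)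
      (intervalIntegrable_const (c := exp (θ + 1))) fun x hx =>
        (rb x hx).2.trans (exp_le_exp.2 (mul_le_of_le_one_right (by linarith) hx.2))
    simpa using this
  have cp : Continuous fun τ => r τ / Z := by fun_prop
  obtain ⟨P, P1, P2, P3⟩ := exP cp
    (fun x hx => div_nonneg ((exp_pos _).le.trans (rb x hx).1) Z0.le)
    (by rw [intervalIntegral.integral_div, div_self Z0.ne'])
  have Pc : CS P := ⟨P1, _, isCompact_Icc, P2⟩
  have Pae : ∀ᵐ τ ∂P, τ ∈ Icc (0 : ℝ) 1 := by rw [← P2]; exact ae_restrict_mem measurableSet_Icc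
  have Uc := Un_cs n
  have := Uc.1
  have θ0 : 0 < θ := by linarith
  have Pl : LS P fun L => 431 / θ * (L 1) ^ 2 := by
    have h1 := oneD (a := 0) (b := 1) (β := exp (-(θ + 2))) (κ := 1 / θ) (s₀ := 1 / θ)
      (Λ := 21 + 2 * θ) zero_le_one cp (w := fun τ => r τ / Z / θ)
      (w' := fun τ => (exp (-(κ * τ)) * -(κ * 1) * (1 + ε * τ) ^ n +
        exp (-(κ * τ)) * (n * (1 + ε * τ) ^ (n - 1) * (ε * 1))) / Z / θ) (by fun_prop)
      (fun x => (((((hasDerivAt_id x).const_mul κ).fun_neg.exp).fun_mul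
        ((((hasDerivAt_id x).const_mul ε).const_add 1).fun_pow n)).div_const Z).div_const θ)
      (exp_pos _) (fun x hx => ?_) (fun x hx => ?_) (fun x hx => ?_)
      (div_nonneg (div_nonneg ((exp_pos _).le.trans (rb 0 ⟨le_rfl, zero_le_one⟩).1) Z0.le) θ0.le)
      (by positivity) (by linarith) ?_ Pc fun F _ => P3 F
    · refine push (T := id) Pc (by fun_prop) (by fun_prop) h1 contDiff_id (fun _ _ => rfl)
        (Filter.Eventually.of_forall fun x L => ?_)
      rw [fderiv_id, comp_id]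
      refine mul_le_mul_of_nonneg_right ?_ (sq_nonneg _)
      rw [le_div_iff₀ θ0]
      have : ((15 + 4 * (21 + 2 * θ)) * (4 * (1 / θ) ^ 2) + 3 * (1 / θ)) * θ = 396 / θ + 35 := by
        field_simp; ring
      rw [this]
      linarith [div_le_self (show (0 : ℝ) ≤ 396 by norm_num) hθ1]
    · rw [le_div_iff₀ Z0]
      refine (mul_le_mul_of_nonneg_left Z1 (exp_pos _).le).trans (le_trans ?_ (rb x hx).1)
      rw [← exp_add]
      exact exp_le_exp.2 (by nlinarith [hx.1])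
    · rw [le_div_iff₀ θ0, div_mul_eq_mul_div]
      refine div_le_div_of_nonneg_right ?_ Z0.le
      have p1 : 0 ≤ ε * x := mul_nonneg hε hx.1
      have p2 : 0 < exp (-(κ * x)) * (1 + ε * x) ^ (n - 1) := by positivity
      have p3 : (n * ε - 1) * (1 + ε * x) ≤ n * ε := by
        nlinarith [mul_le_mul_of_nonneg_right h hx.1, hx.2]
      have p4 := mul_le_mul_of_nonneg_left p3 p2.le
      simp only [hr]
      rw [← pow_sub_one_mul hn (1 + ε * x)]
      have : κ = n * ε - (θ + 1) := hκ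
      generalize exp (-(κ * x)) = e at *
      rw [this]
      nlinarith
    · rw [abs_of_nonneg (div_nonneg (div_nonneg ((exp_pos _).le.trans (rb x hx).1) Z0.le) θ0.le)]
      exact le_of_eq (by ring)
    · have e1 : exp (21 + 2 * θ) * (1 / θ) * exp (-(θ + 2)) = exp 19 * (exp θ / θ) := by
        have : exp (21 + 2 * θ) * exp (-(θ + 2)) = exp 19 * exp θ := by
          rw [← exp_add, ← exp_add]; ring_nf
        linear_combination (1 / θ) * this
      have e2 : 1 ≤ exp θ / θ := by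
        rw [one_le_div θ0]; linarith [add_one_le_exp θ]
      have e3 : (1 / θ) ^ 2 ≤ 1 := pow_le_one₀ (by positivity) (by rwa [div_le_one θ0])
      rw [e1]
      nlinarith [add_one_le_exp 19, exp_pos 19]
  set c := ∫ τ, τ ∂P with hc
  have c0 : 0 ≤ c := integral_nonneg_of_ae (Pae.mono fun _ h => h.1)
  have c1 : c ≤ 1 := by
    have := integral_mono_ae (Pc.int continuous_id) (integrable_const (1 : ℝ))
      (Pae.mono fun _ h => h.2)
    simpa using this
  refine ⟨κ, c, fun μ hμ => ?_⟩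
  have cT := (T_c1 n δ ε c).continuous
  have cV : Continuous fun x : E n => -(κ * (x 0 + c)) := by fun_prop
  have ZK : ∫ x in K n δ ε c, exp (-(κ * (x 0 + c))) = δ ^ n * Z := by
    rw [volK hδ hε hε1 c (by fun_prop), hZ, ← intervalIntegral.integral_const_mul]
    congr 1 with τ
    simp [hr, sf, mul_pow]
    ring
  have PU := Pc.prod Uc
  have hI : ∀ F : E n → ℝ, Continuous F → ∫ x, F x ∂μ = ∫ z, F (T n δ ε c z) ∂P.prod (Un n) := by
    intro F hF
    rw [hμ, integral_tilted, ZK, volK hδ hε hε1 c (by fun_prop),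
      integral_prod (fun z => F (T n δ ε c z)) (PU.int (hF.comp cT)), P3]
    congr 1 with τ
    simp only [T0, sub_add_cancel, smul_eq_mul, integral_const_mul, hr, sf, mul_pow]
    field_simp
  have hK := K_compact (n := n) hδ hε1 c
  have μc : CS μ := by
    rw [hμ]
    refine tilt_cs hK (by rw [Measure.restrict_restrict hK.measurableSet, inter_self])
      (fun h0 => ?_) cV
    rw [h0, integral_zero_measure] at ZK
    exact (mul_pos (pow_pos hδ n) Z0).ne ZK
  refine ⟨μc, ?_, ?_, ?_⟩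
  · ext i
    have := (EuclideanSpace.proj (𝕜 := ℝ) i).integral_comp_comm (μc.int continuous_id)
    simp only [id, PiLp.proj_apply] at this
    rw [← this, hI _ (by fun_prop)]
    refine Fin.cases ?_ (fun j => ?_) i
    · simp only [T0]
      rw [integral_prod _ (PU.int (by fun_prop))]
      simp only [integral_const, probReal_univ, one_smul]
      rw [integral_sub (f := fun τ => τ) (Pc.int continuous_id) (integrable_const _)]
      simp [hc]
    · simp only [Ts]
      rw [integral_prod_mul (sf δ ε) (fun u : Fin n → ℝ => u j), Un, integral_eval, U_int]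
      norm_num
  · refine push PU (by fun_prop) (by fun_prop)
      (tensor Pc Uc (by fun_prop) (by fun_prop) Pl (Un_ls n)) (T_c1 n δ ε c) hI ?_
    have : ∀ᵐ z ∂P.prod (Un n),
        z ∈ Icc (0 : ℝ) 1 ×ˢ univ.pi fun _ : Fin n => Icc (-1 / 2 : ℝ) (1 / 2) := by
      rw [← P2, Un_eq, Measure.prod_restrict]
      exact ae_restrict_mem (measurableSet_Icc.prod
        (MeasurableSet.univ_pi fun _ => measurableSet_Icc))
    filter_upwards [this] with z hz L
    refine (Qb hδ hδ1 hε hε1 h c (by positivity) hz L).trans (le_of_eq ?_)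
    ring
  · have := μc.1
    have cg : Continuous fun x : E n => -‖x‖ ^ 2 / (2 * 1) := by fun_prop
    obtain ⟨K', hK', eK⟩ := μc.2
    set g : ℝ → ℝ := fun τ => r τ / Z * (exp (-(τ - c) ^ 2 / 2) * wf (sf δ ε τ) ^ n) with hg
    have cw := wf_cont
    have cg' : Continuous g := by fun_prop
    have hJ : ∀ G : ℝ → ℝ, Continuous G → ∫ x, exp (-‖x‖ ^ 2 / (2 * 1)) * G (x 0 + c) ∂μ =
        ∫ τ in (0 : ℝ)..1, g τ * G τ := by
      intro G hG
      rw [hI _ (by fun_prop), integral_prod _ (PU.int (by fun_prop)), P3]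
      congr 1 with τ
      have : ∀ u : Fin n → ℝ, exp (-‖T n δ ε c (τ, u)‖ ^ 2 / (2 * 1)) =
          exp (-(τ - c) ^ 2 / 2) * ∏ i, exp (-(sf δ ε τ * u i) ^ 2 / 2) := fun u => by
        rw [← exp_sum, ← exp_add, T, A_norm, ← Finset.sum_div, Finset.sum_neg_distrib]
        simp only [Pi.smul_apply, smul_eq_mul]
        ring_nf
      simp only [this, T0, sub_add_cancel, integral_mul_const, integral_const_mul, hg]
      rw [Un, integral_fintype_prod_eq_pow (fun u => exp (-(sf δ ε τ * u) ^ 2 / 2)),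
        Fintype.card_fin, wf]
      ring
    have gb : ∀ τ ∈ Icc (0 : ℝ) 1, exp (-2) * (wf δ ^ n / Z) ≤ g τ ∧
        g τ ≤ exp 3 * (wf δ ^ n / Z) := by
      intro τ hτ
      have p1 : 0 ≤ ε * τ := mul_nonneg hε hτ.1
      have p2 : ε * τ ≤ 1 := mul_le_one₀ hε1 hτ.1 hτ.2
      have p3 : ε * τ ≤ ε := mul_le_of_le_one_right hε hτ.2
      have d1 : δ ^ 2 ≤ 1 := by nlinarith
      set x := δ ^ 2 * (ε * τ + (ε * τ) ^ 2 / 2) with hx
      have x0 : 0 ≤ x := by positivity
      have x1 : x ≤ 3 / 2 * ε := by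
        have : x ≤ ε * τ + (ε * τ) ^ 2 / 2 := mul_le_of_le_one_left (by positivity) d1
        nlinarith
      have x2 : n * x ^ 2 ≤ 9 / 4 := by
        have := mul_le_mul_of_nonneg_left (pow_le_pow_left₀ x0 x1 2) (Nat.cast_nonneg (α := ℝ) n)
        nlinarith
      obtain ⟨w1, w2⟩ := wf_bounds (δ := δ) (t := sf δ ε τ) (x := x) (by rw [hx, sf]; ring) x0
      have w3 := pow_le_pow_left₀ (mul_pos (exp_pos _) (wf_pos δ)).le w1 n
      have w4 := pow_le_pow_left₀ (wf_pos _).le w2 n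
      rw [mul_pow, ← exp_nat_mul] at w3 w4
      set ρ := n * (ε * τ) ^ 2 * (b0 δ * δ ^ 2) with hρ
      have b1 := b0_ge d1
      have ρ0 : 0 ≤ ρ := by have : 0 ≤ b0 δ := by linarith
                            positivity
      have ρ1 : ρ ≤ 1 := by
        refine mul_le_one₀ ?_ (by have : 0 ≤ b0 δ := by linarith
                                  positivity) (mul_le_one₀ (b0_le δ) (sq_nonneg _) d1)
        exact (mul_le_mul_of_nonneg_left (pow_le_pow_left₀ p1 p3 2) (Nat.cast_nonneg _)).trans h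
      have e1 : n * (x * b0 δ) = (θ + 1) * τ + ρ / 2 := by rw [hθ, hx, hρ]; ring
      have t1 : (τ - c) ^ 2 ≤ 1 := by nlinarith [hτ.1, hτ.2]
      have W := pow_pos (wf_pos δ) n
      simp only [hg]
      rw [div_mul_eq_mul_div, ← mul_div_assoc, ← mul_div_assoc]
      constructor <;> refine div_le_div_of_nonneg_right ?_ Z0.le
      · refine le_trans ?_ (mul_le_mul (rb τ hτ).1 (mul_le_mul_of_nonneg_left w3 (exp_pos _).le)
          (by positivity) ((exp_pos _).le.trans (rb τ hτ).1))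
        rw [← mul_assoc, ← mul_assoc, ← exp_add, ← exp_add]
        exact mul_le_mul_of_nonneg_right (exp_le_exp.2 (by linarith)) W.le
      · refine (mul_le_mul (rb τ hτ).2 (mul_le_mul_of_nonneg_left w4 (exp_pos _).le)
          (mul_pos (exp_pos _) (pow_pos (wf_pos _) n)).le (exp_pos _).le).trans ?_
        rw [← mul_assoc, ← mul_assoc, ← exp_add, ← exp_add]
        exact mul_le_mul_of_nonneg_right (exp_le_exp.2 (by
          nlinarith [sq_nonneg (τ - c)])) W.le
    set Y := ∫ x, exp (-‖x‖ ^ 2 / (2 * 1)) ∂μ with hY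
    have Y0 : 0 < Y := μc.pos (by fun_prop) fun _ => exp_pos _
    have Y1 : Y ≤ exp 3 * (wf δ ^ n / Z) := by
      have h1 := hJ (fun _ => 1) continuous_const
      simp only [mul_one (g _), mul_one (exp _)] at h1
      have := intervalIntegral.integral_mono_on zero_le_one
        (cg'.intervalIntegrable (μ := volume) _ _) intervalIntegrable_const fun x hx => (gb x hx).2
      rw [hY, h1]
      simpa using this
    refine low (tilt_cs hK' eK (IsProbabilityMeasure.ne_zero μ) cg) (φ := fun x => x 0 + c)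
      (by fun_prop) (q := fun τ => g τ / Y) (by fun_prop) (exp_pos _) (fun x hx => ?_) fun G hG => ?_
    · rw [le_div_iff₀ Y0]
      refine (mul_le_mul_of_nonneg_left Y1 (exp_pos _).le).trans (le_trans (le_of_eq ?_) (gb x hx).1)
      rw [← mul_assoc, ← exp_add]
      norm_num
    · rw [integral_tilted, ← hY]
      simp only [smul_eq_mul, div_mul_eq_mul_div, integral_div, intervalIntegral.integral_div]
      rw [hJ G hG]

end Pool.Agent.H.MP_13a01f_pr
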