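import Pool.Agent.H.MP_13a01f_pr.F
import Pool.Agent.H.MP_3c9300_gt.A

set_option autoImplicit false
open MeasureTheory Set Real Pointwise
open scoped ENNReal NNReal

namespace Pool.Agent.H.MP_13a01f_pr

lemma pln {m : ℕ} {t : ℝ} (h0 : 0 < t) (h1 : t < 1) {f g h : EuclideanSpace ℝ (Fin m) → ℝ≥0∞}
    (hf : Measurable f) (hg : Measurable g) (hh : Measurable h)
    (H : ∀ x y, f x ^ t * g y ^ (1 - t) ≤ h (t • x + (1 - t) • y)) :
    (∫⁻ x, f x) ^ t * (∫⁻ x, g x) ^ (1 - t) ≤ ∫⁻ x, h x := by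
  have mp := PiLp.volume_preserving_toLp (Fin m)
  have := MP_3c9300_gt.rbl (ι := Fin m) (J := Bool) (fun j => cond j t (1 - t))
    (fun j => by cases j <;> simp [h0, h1])
    (fun j x => cond j (f (WithLp.toLp 2 x)) (g (WithLp.toLp 2 x)))
    (fun j => by cases j; exacts [hg.comp mp.measurable, hf.comp mp.measurable])
    (fun x => h (WithLp.toLp 2 x)) (hh.comp mp.measurable) Finset.univ (fun _ => Finset.univ)
    (fun _ => le_rfl) (by simp) (fun _ => 0) 0 fun x z _ _ hz => by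
      have : WithLp.toLp 2 z = t • WithLp.toLp 2 (x true) + (1 - t) • WithLp.toLp 2 (x false) := by
        ext i
        simpa using hz i (Finset.mem_univ _)
      rw [this]
      simpa using H _ _
  simp only [lmarginal_univ, Fintype.prod_bool, cond_true, cond_false, ← volume_pi] at this
  rwa [mp.lintegral_comp hf, mp.lintegral_comp hg, mp.lintegral_comp hh] at this

lemma lc {m : ℕ} {K : Set (EuclideanSpace ℝ (Fin m))} (hK : IsCompact K) (cK : Convex ℝ K)
    {V : EuclideanSpace ℝ (Fin m) → ℝ} (cV : Continuous V) (hV : ConcaveOn ℝ univ V)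
    {μ : Measure (EuclideanSpace ℝ (Fin m))} (hμ : μ = (volume.restrict K).tilted V)
    (A B : Set (EuclideanSpace ℝ (Fin m))) (hA : IsCompact A) (hB : IsCompact B)
    (nA : A.Nonempty) (nB : B.Nonempty) (t : ℝ) (ht : t ∈ Icc (0 : ℝ) 1) :
    μ A ^ t * μ B ^ (1 - t) ≤ μ (t • A + (1 - t) • B) := by
  rcases ht.1.eq_or_lt with rfl | h0
  · simp [zero_smul_set nA]
  rcases ht.2.eq_or_lt with rfl | h1
  · simp [zero_smul_set nB]
  set Z := ∫ x in K, exp (V x) with hZ
  have mρ : Measurable fun x => ENNReal.ofReal (exp (V x) / Z) := by fun_prop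
  have e : ∀ S, IsCompact S →
      μ S = ∫⁻ x, (S ∩ K).indicator (fun x => ENNReal.ofReal (exp (V x) / Z)) x := fun S hS => by
    rw [hμ, tilted_apply' _ _ hS.measurableSet, Measure.restrict_restrict hS.measurableSet,
      lintegral_indicator (hS.measurableSet.inter hK.measurableSet)]
  have hC : IsCompact (t • A + (1 - t) • B) := (hA.smul t).add (hB.smul _)
  rw [e A hA, e B hB, e _ hC]
  refine pln h0 h1 (mρ.indicator (hA.measurableSet.inter hK.measurableSet))
    (mρ.indicator (hB.measurableSet.inter hK.measurableSet))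
    (mρ.indicator (hC.measurableSet.inter hK.measurableSet)) fun x y => ?_
  have h2 : 0 < 1 - t := by linarith
  by_cases hx : x ∈ A ∩ K
  swap
  · simp [indicator_of_notMem hx, ENNReal.zero_rpow_of_pos h0]
  by_cases hy : y ∈ B ∩ K
  swap
  · simp [indicator_of_notMem hy, ENNReal.zero_rpow_of_pos h2]
  rw [indicator_of_mem hx, indicator_of_mem hy, indicator_of_mem (show _ ∈ _ ∩ K from
    ⟨add_mem_add (smul_mem_smul_set hx.1) (smul_mem_smul_set hy.1),
      cK hx.2 hy.2 h0.le h2.le (by ring)⟩)]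
  rcases (show 0 ≤ Z from integral_nonneg fun _ => (exp_pos _).le).eq_or_lt with Z0 | Z0
  · simp [← Z0, ENNReal.zero_rpow_of_pos h0]
  have e2 : ∀ v, exp v / Z = exp (v - log Z) := fun v => by rw [exp_sub, exp_log Z0]
  simp only [e2]
  rw [ENNReal.ofReal_rpow_of_pos (exp_pos _), ENNReal.ofReal_rpow_of_pos (exp_pos _),
    ← ENNReal.ofReal_mul (by positivity), ← exp_mul, ← exp_mul, ← exp_add]
  refine ENNReal.ofReal_le_ofReal (exp_le_exp.2 ?_)
  have := hV.2 (mem_univ x) (mem_univ y) h0.le h2.le (by ring)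
  simp only [smul_eq_mul] at this
  linarith

lemma final (C : ℝ) (hC : 0 ≤ C) : ∃ (n : ℕ) (μ : Measure (E n)) (c a b : ℝ), CS μ ∧
    (∀ A B : Set (E n), IsCompact A → IsCompact B → A.Nonempty → B.Nonempty →
      ∀ t ∈ Icc (0 : ℝ) 1, μ A ^ t * μ B ^ (1 - t) ≤ μ (t • A + (1 - t) • B)) ∧
    μ ≪ volume ∧ ∫ x, x ∂μ = 0 ∧ 0 ≤ a ∧ C * a < b ∧ LS μ (fun L => a * ‖L‖ ^ 2) ∧
    b ≤ Ent (μ.tilted fun x => -‖x‖ ^ 2 / (2 * 1)) fun x => (x 0 + c + 1) ^ 2 := by
  obtain ⟨k, hk⟩ := exists_nat_gt (max 7 (C * 42844 / (exp (-5) / 12)))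
  have k7 : (7 : ℝ) < k := (le_max_left _ _).trans_lt hk
  have k1 := (le_max_right _ _).trans_lt hk
  rw [div_lt_iff₀ (by positivity)] at k1
  have k0 : (0 : ℝ) < k := by linarith
  have hδ1 : 1 / (k : ℝ) ≤ 1 := by rw [div_le_one k0]; linarith
  have hε1 : (1 / (k : ℝ)) ^ 4 ≤ 1 := pow_le_one₀ (by positivity) hδ1
  have b := b0_ge (δ := 1 / k) (pow_le_one₀ (by positivity) hδ1)
  set θ := (k ^ 8 : ℕ) * b0 (1 / k) * (1 / (k : ℝ)) ^ 2 * (1 / (k : ℝ)) ^ 4 - 1 with hθ
  have e : θ = b0 (1 / k) * k ^ 2 - 1 := by rw [hθ]; push_cast; field_simp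
  have t1 : (k : ℝ) ^ 2 / 48 ≤ θ := by nlinarith
  have t2 : 1 ≤ θ := by nlinarith
  obtain ⟨κ, c, h⟩ := main (n := k ^ 8) (δ := 1 / k) (ε := (1 / k) ^ 4)
    (pow_ne_zero _ (by rintro rfl; simp at k0)) (by positivity) hδ1 (by positivity) hε1
    (le_of_eq (by push_cast; field_simp)) hθ t2
  obtain ⟨h1, h2, h3, h4⟩ := h _ rfl
  refine ⟨_, _, c, _, _, h1, lc (K_compact (by positivity) hε1 c) (K_convex _ _ _ _)
    (by fun_prop) ⟨convex_univ, fun x _ y _ a b _ _ hab => le_of_eq ?_⟩ rfl,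
    (tilted_absolutelyContinuous _ _).trans Measure.absolutelyContinuous_restrict, h2,
    by positivity, ?_, h3, h4⟩
  · simp only [PiLp.add_apply, PiLp.smul_apply, smul_eq_mul]
    linear_combination (-κ * c) * hab
  · have a1 : 862 / θ ≤ 862 / ((k : ℝ) ^ 2 / 48) :=
      div_le_div_of_nonneg_left (by norm_num) (by positivity) t1
    have a2 : 862 / ((k : ℝ) ^ 2 / 48) + 1468 * (1 / (k : ℝ)) ^ 2 = 42844 / k * (1 / k) := by
      field_simp; norm_num
    have a3 : 42844 / (k : ℝ) * (1 / k) ≤ 42844 / k := mul_le_of_le_one_right (by positivity) hδ1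
    have a4 : C * (42844 / k) < exp (-5) / 12 := by
      rw [← mul_div_assoc, div_lt_iff₀ k0]; linarith
    exact (mul_le_mul_of_nonneg_left (by linarith) hC).trans_lt a4

end Pool.Agent.H.MP_13a01f_pr
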